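import Pool.Agent.W58.GU.Stm

set_option autoImplicit false

namespace Pool.Agent.W3.GU
open Finset Pool.Agent.W58.GU

theorem l7 (hs : S_SPLIT) : S_L7 := by
  intro P C w r hC hsucc hbd i hr f hf
  obtain ⟨d, g, hd, hg, hgK, hfe⟩ := hf.inv
  have hm : (0 : ℝ) < P.m i := by exact_mod_cast P.m_pos i
  have hn : (0 : ℝ) < P.n i := by exact_mod_cast P.n_pos i
  have hrR : (P.m i : ℝ) * P.n i ≤ r := by exact_mod_cast hr
  have hr0 : (0 : ℝ) < r := lt_of_lt_of_le (by positivity) hrR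
  obtain ⟨E', F, hE', hcard, hF, hdisj, hsplit⟩ := hs d g (range r) w hg (by
    intro k _ l hl hkl
    exact hsucc k l hkl (mem_range.mp hl))
  -- the pairing with the sum
  have h1 : pr f (∑ l ∈ range r, w l : ℕ →₀ ℝ) =
      ∑ k ∈ E', pr f (w k) + (1 / (P.m i : ℝ)) * ∑ l ∈ range d, ∑ k ∈ F l, pr (g l) (w k) := by
    have h2 : ∀ x : ℕ → ℝ, pr f x = (1 / (P.m i : ℝ)) * pr (∑ l ∈ range d, g l) x := by
      intro x
      rw [hfe, pr_smul_left]
      push_cast
      rfl
    rw [h2, hsplit, mul_add, Finset.mul_sum]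
    congr 1
    · exact Finset.sum_congr rfl fun k _ => (h2 (w k)).symm
    · congr 1
      exact Finset.sum_congr rfl fun l _ => pr_fsum _ _ _
  have h3 : |∑ k ∈ E', pr f (w k)| ≤ P.n i * C := by
    refine le_trans (Finset.abs_sum_le_sum_abs _ _) ?_
    refine le_trans (Finset.sum_le_card_nsmul _ _ C fun k hk => ?_) ?_
    · exact hbd k (mem_range.mp (hE' hk)) f ⟨_, hf⟩
    · rw [nsmul_eq_mul]
      refine mul_le_mul_of_nonneg_right ?_ hC
      exact_mod_cast hcard.trans hd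
  have h4 : |∑ l ∈ range d, ∑ k ∈ F l, pr (g l) (w k)| ≤ r * C := by
    have h5 : ∀ l ∈ range d, |∑ k ∈ F l, pr (g l) (w k)| ≤ ((F l).card : ℝ) * C := by
      intro l hl
      refine le_trans (Finset.abs_sum_le_sum_abs _ _) ?_
      refine le_trans (Finset.sum_le_card_nsmul _ _ C fun k hk => ?_) ?_
      · have hk' := (hF l (mem_range.mp hl)) hk
        exact hbd k (mem_range.mp (Finset.mem_sdiff.mp hk').1) (g l) (hgK l (mem_range.mp hl))
      · rw [nsmul_eq_mul]
    refine le_trans (Finset.abs_sum_le_sum_abs _ _) ?_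
    refine le_trans (Finset.sum_le_sum h5) ?_
    rw [← Finset.sum_mul]
    refine mul_le_mul_of_nonneg_right ?_ hC
    have h6 : ∑ l ∈ range d, (F l).card = ((range d).biUnion F).card := by
      rw [Finset.card_biUnion]
      intro a ha b hb hab
      exact hdisj a b (mem_range.mp ha) (mem_range.mp hb) hab
    have h7 : ((range d).biUnion F).card ≤ (range r).card := by
      apply Finset.card_le_card
      intro k hk
      obtain ⟨l, hl, hk⟩ := Finset.mem_biUnion.mp hk
      exact (Finset.mem_sdiff.mp ((hF l (mem_range.mp hl)) hk)).1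
    rw [Finset.card_range] at h7
    rw [← h6] at h7
    exact_mod_cast h7
  have h8 : |pr f (∑ l ∈ range r, w l : ℕ →₀ ℝ)| ≤ P.n i * C + (1 / (P.m i : ℝ)) * (r * C) := by
    rw [h1]
    refine le_trans (abs_add_le _ _) (add_le_add h3 ?_)
    rw [abs_mul, abs_of_pos (by positivity : (0 : ℝ) < 1 / P.m i)]
    exact mul_le_mul_of_nonneg_left h4 (by positivity)
  have h9 : pr f (((1 : ℝ) / r) • ∑ l ∈ range r, w l : ℕ →₀ ℝ) =
      (1 / (r : ℝ)) * pr f (∑ l ∈ range r, w l : ℕ →₀ ℝ) := by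
    rw [← pr_smul_right]
    rfl
  rw [h9, abs_mul, abs_of_pos (by positivity : (0 : ℝ) < 1 / (r : ℝ))]
  have h10 : (1 / (r : ℝ)) * (P.n i * C + (1 / (P.m i : ℝ)) * (r * C)) =
      C * ((P.n i : ℝ) / r) + C / P.m i := by
    field_simp
  have h11 : (P.n i : ℝ) / r ≤ 1 / P.m i := by
    rw [div_le_div_iff₀ hr0 hm]
    linarith
  calc (1 / (r : ℝ)) * |pr f (∑ l ∈ range r, w l : ℕ →₀ ℝ)|
      ≤ (1 / (r : ℝ)) * (P.n i * C + (1 / (P.m i : ℝ)) * (r * C)) :=
        mul_le_mul_of_nonneg_left h8 (by positivity)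
    _ = C * ((P.n i : ℝ) / r) + C / P.m i := h10
    _ ≤ C * (1 / P.m i) + C / P.m i := by
        have := mul_le_mul_of_nonneg_left h11 hC
        linarith
    _ = 2 * C / P.m i := by ring

end Pool.Agent.W3.GU
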