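import Pool.Agent.W58.GU.Stm

set_option autoImplicit false

namespace Pool.Agent.W3.GU
open Finset Pool.Agent.W58.GU

/-- the largest index of weight at most `i` -/
theorem exists_k0 (E : Finset ℕ) (j : ℕ → ℕ) (i : ℕ) :
    (∀ k ∈ E, i < j k) ∨ ∃ k0 ∈ E, j k0 ≤ i ∧ ∀ k ∈ E, k0 < k → i < j k := by
  classical
  by_cases h : (E.filter fun k => j k ≤ i).Nonempty
  · right
    refine ⟨(E.filter fun k => j k ≤ i).max' h, ?_, ?_, ?_⟩
    · exact (mem_filter.mp ((E.filter fun k => j k ≤ i).max'_mem h)).1
    · exact (mem_filter.mp ((E.filter fun k => j k ≤ i).max'_mem h)).2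
    · intro k hk hlt
      by_contra hcon
      push Not at hcon
      have := (E.filter fun k => j k ≤ i).le_max' k (mem_filter.mpr ⟨hk, hcon⟩)
      omega
  · left
    intro k hk
    by_contra hcon
    push Not at hcon
    exact h ⟨k, mem_filter.mpr ⟨hk, hcon⟩⟩

theorem hi : S_HI := by
  intro P C ε E0 x j hC hε hF i f hf E hE
  have hm : (0 : ℝ) < P.m i := by exact_mod_cast P.m_pos i
  have h0 : 0 ≤ C * ε := mul_nonneg hC hε
  have h1 : 0 ≤ C / P.m i := by positivity
  rw [pr_fsum]
  refine le_trans (abs_sum_le_sum_abs _ _) ?_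
  rcases exists_k0 E j i with h | ⟨k0, hk0, hj0, h⟩
  · have h2 : ∀ k ∈ E, |pr f (x k)| ≤ C / P.m i := fun k hk => hF.r2 k (hE hk) i (h k hk) f hf
    refine le_trans (sum_le_card_nsmul _ _ _ h2) ?_
    rw [nsmul_eq_mul]
    have h3 : (0 : ℝ) ≤ C * ε * E.card := by positivity
    have h4 : C * (1 + 1 / P.m i * E.card + ε * E.card) =
        C + E.card * (C / P.m i) + C * ε * E.card := by ring
    rw [h4]
    linarith
  · classical
    have h2 : ∀ k ∈ E, |pr f (x k)| ≤ (C * ε + C / P.m i) + if k = k0 then C else 0 := by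
      intro k hk
      rcases lt_trichotomy k k0 with hlt | heq | hgt
      · rw [if_neg (by omega)]
        have := hF.r3 k (hE hk) k0 (hE hk0) hlt i hj0 f hf
        linarith
      · rw [if_pos heq]
        have := hF.r1 k (hE hk) f ⟨_, hf⟩
        linarith
      · rw [if_neg (by omega)]
        have := hF.r2 k (hE hk) i (h k hk hgt) f hf
        linarith
    refine le_trans (sum_le_sum h2) ?_
    rw [sum_add_distrib, sum_const, nsmul_eq_mul, sum_ite_eq' E k0, if_pos hk0]
    apply le_of_eq
    ring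

theorem step (hs : S_SPLIT) : S_STEP := by
  intro P C ε E0 x j hC hε hF B p hB hp hyp nn i hnn hni f hf E hE
  have hm : (0 : ℝ) < P.m i := by exact_mod_cast P.m_pos i
  have hm1 : (1 : ℝ) ≤ P.m i := by
    have := P.m_pos i
    exact_mod_cast this
  have hm2 : 1 / (P.m i : ℝ) ≤ 1 := by rw [div_le_one hm]; exact hm1
  have hnnR : (1 : ℝ) ≤ nn := by exact_mod_cast hnn
  -- the main part
  have main : ∀ E ⊆ E0, (∀ k ∈ E, i < j k) → |pr f (∑ k ∈ E, x k : ℕ →₀ ℝ)| ≤
      C * (nn + nn * B + p / P.m i * E.card + ε * E.card) := by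
    intro E hE _
    obtain ⟨d, g, hd, hg, hgK, hfe⟩ := hf.inv
    have hdn : (d : ℝ) ≤ nn := by exact_mod_cast hd.trans hni
    obtain ⟨E', F, hE', hcard, hFl, hdisj, hsplit⟩ := hs d g E x hg
      (fun k hk l hl hkl => hF.succ k (hE hk) l (hE hl) hkl)
    have h2 : ∀ x : ℕ → ℝ, pr f x = (1 / (P.m i : ℝ)) * pr (∑ l ∈ range d, g l) x := by
      intro x
      rw [hfe, pr_smul_left]
      push_cast
      rfl
    have h1 : pr f (∑ l ∈ E, x l : ℕ →₀ ℝ) =
        ∑ k ∈ E', pr f (x k) +
          (1 / (P.m i : ℝ)) * ∑ l ∈ range d, pr (g l) (∑ k ∈ F l, x k : ℕ →₀ ℝ) := by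
      rw [h2, hsplit, mul_add, Finset.mul_sum]
      congr 1
      exact Finset.sum_congr rfl fun k _ => (h2 (x k)).symm
    have h3 : |∑ k ∈ E', pr f (x k)| ≤ nn * C := by
      refine le_trans (Finset.abs_sum_le_sum_abs _ _) ?_
      refine le_trans (Finset.sum_le_card_nsmul _ _ C fun k hk => ?_) ?_
      · exact hF.r1 k (hE (hE' hk)) f ⟨_, hf⟩
      · rw [nsmul_eq_mul]
        refine mul_le_mul_of_nonneg_right ?_ hC
        exact le_trans (by exact_mod_cast hcard) hdn
    have h6 : ∑ l ∈ range d, ((F l).card : ℝ) ≤ E.card := by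
      have h7 : ∑ l ∈ range d, (F l).card = ((range d).biUnion F).card := by
        rw [Finset.card_biUnion]
        intro a ha b hb hab
        exact hdisj a b (mem_range.mp ha) (mem_range.mp hb) hab
      have h8 : ((range d).biUnion F).card ≤ E.card := by
        apply Finset.card_le_card
        intro k hk
        obtain ⟨l, hl, hk⟩ := Finset.mem_biUnion.mp hk
        exact (Finset.mem_sdiff.mp ((hFl l (mem_range.mp hl)) hk)).1
      rw [← h7] at h8
      exact_mod_cast h8
    have h4 : |∑ l ∈ range d, pr (g l) (∑ k ∈ F l, x k : ℕ →₀ ℝ)| ≤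
        C * (nn * B + p * E.card + ε * E.card) := by
      have h5 : ∀ l ∈ range d, |pr (g l) (∑ k ∈ F l, x k : ℕ →₀ ℝ)| ≤
          C * (B + (p + ε) * (F l).card) := by
        intro l hl
        have := hyp (g l) (hgK l (mem_range.mp hl)) (F l) (fun k hk =>
          hE (Finset.mem_sdiff.mp ((hFl l (mem_range.mp hl)) hk)).1)
        refine le_trans this (le_of_eq ?_)
        ring
      refine le_trans (Finset.abs_sum_le_sum_abs _ _) ?_
      refine le_trans (Finset.sum_le_sum h5) ?_
      rw [← Finset.mul_sum]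
      refine mul_le_mul_of_nonneg_left ?_ hC
      rw [Finset.sum_add_distrib, Finset.sum_const, Finset.card_range, nsmul_eq_mul,
        ← Finset.mul_sum]
      have h9 : (d : ℝ) * B ≤ nn * B := mul_le_mul_of_nonneg_right hdn (by linarith)
      have h10 : (p + ε) * ∑ l ∈ range d, ((F l).card : ℝ) ≤ (p + ε) * E.card :=
        mul_le_mul_of_nonneg_left h6 (by linarith)
      linarith
    rw [h1]
    refine le_trans (abs_add_le _ _) ?_
    rw [abs_mul, abs_of_pos (by positivity : (0 : ℝ) < 1 / P.m i)]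
    have h11 := mul_le_mul_of_nonneg_left h4 (by positivity : (0 : ℝ) ≤ 1 / P.m i)
    have h12 : (1 / (P.m i : ℝ)) * (C * (nn * B + p * E.card + ε * E.card)) =
        (1 / (P.m i : ℝ)) * (C * (nn * B)) + C * (p / P.m i * E.card) +
          (1 / (P.m i : ℝ)) * (C * (ε * E.card)) := by ring
    have h13 : (1 / (P.m i : ℝ)) * (C * (nn * B)) ≤ C * (nn * B) := by
      have : 0 ≤ C * (nn * B) := by positivity
      exact mul_le_of_le_one_left this hm2
    have h14 : (1 / (P.m i : ℝ)) * (C * (ε * E.card)) ≤ C * (ε * E.card) := by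
      have : 0 ≤ C * (ε * E.card) := by positivity
      exact mul_le_of_le_one_left this hm2
    have h15 : C * (nn + nn * B + p / P.m i * E.card + ε * E.card) =
        nn * C + C * (nn * B) + C * (p / P.m i * E.card) + C * (ε * E.card) := by ring
    rw [h15]
    linarith
  rcases exists_k0 E j i with h | ⟨k0, hk0, hj0, h⟩
  · refine le_trans (main E hE h) (mul_le_mul_of_nonneg_left ?_ hC)
    have h16 : (nn : ℝ) ≤ nn * B := by nlinarith
    nlinarith
  · classical
    have hsub1 : E.filter (fun k => k < k0) ⊆ E0 := (filter_subset _ _).trans hE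
    have hsub2 : E.filter (fun k => k0 < k) ⊆ E0 := (filter_subset _ _).trans hE
    have hdec : (∑ k ∈ E, x k : ℕ →₀ ℝ) = ∑ k ∈ E.filter (fun k => k < k0), x k + x k0 +
        ∑ k ∈ E.filter (fun k => k0 < k), x k := by
      rw [← Finset.sum_filter_add_sum_filter_not E (fun k => k < k0)]
      rw [add_assoc]
      congr 1
      have : E.filter (fun k => ¬ k < k0) = insert k0 (E.filter (fun k => k0 < k)) := by
        ext k
        simp only [mem_filter, mem_insert]
        constructor
        · rintro ⟨h1, h2⟩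
          rcases eq_or_lt_of_le (not_lt.mp h2) with h3 | h3
          · exact Or.inl h3.symm
          · exact Or.inr ⟨h1, h3⟩
        · rintro (h1 | ⟨h1, h2⟩)
          · rw [h1]; exact ⟨hk0, lt_irrefl _⟩
          · exact ⟨h1, not_lt.mpr h2.le⟩
      rw [this, Finset.sum_insert (by simp)]
    have hcardle : ((E.filter (fun k => k < k0)).card : ℝ) +
        (E.filter (fun k => k0 < k)).card ≤ E.card := by
      have h1 : Disjoint (E.filter (fun k => k < k0)) (E.filter (fun k => k0 < k)) := by
        rw [Finset.disjoint_filter]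
        intro k _ h1 h2
        omega
      have h2 := Finset.card_union_of_disjoint h1
      have h3 : (E.filter (fun k => k < k0) ∪ E.filter (fun k => k0 < k)).card ≤ E.card :=
        card_le_card (union_subset (filter_subset _ _) (filter_subset _ _))
      rw [h2] at h3
      exact_mod_cast h3
    have e1 : |pr f (∑ k ∈ E.filter (fun k => k < k0), x k : ℕ →₀ ℝ)| ≤
        (E.filter (fun k => k < k0)).card * (C * ε) := by
      rw [pr_fsum]
      refine le_trans (abs_sum_le_sum_abs _ _) ?_
      refine le_trans (sum_le_card_nsmul _ _ (C * ε) fun k hk => ?_) ?_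
      · obtain ⟨h1, h2⟩ := mem_filter.mp hk
        exact hF.r3 k (hE h1) k0 (hE hk0) h2 i hj0 f hf
      · rw [nsmul_eq_mul]
    have e2 : |pr f (x k0)| ≤ C := hF.r1 k0 (hE hk0) f ⟨_, hf⟩
    have e3 := main (E.filter (fun k => k0 < k)) hsub2 (by
      intro k hk
      obtain ⟨h1, h2⟩ := mem_filter.mp hk
      exact h k h1 h2)
    have e4 : pr f (∑ k ∈ E, x k : ℕ →₀ ℝ) =
        pr f (∑ k ∈ E.filter (fun k => k < k0), x k : ℕ →₀ ℝ) + pr f (x k0) +
        pr f (∑ k ∈ E.filter (fun k => k0 < k), x k : ℕ →₀ ℝ) := by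
      rw [hdec]
      rw [Finsupp.coe_add, Finsupp.coe_add, pr_add_right, pr_add_right]
    rw [e4]
    have e5 : |pr f (∑ k ∈ E.filter (fun k => k < k0), x k : ℕ →₀ ℝ) + pr f (x k0) +
        pr f (∑ k ∈ E.filter (fun k => k0 < k), x k : ℕ →₀ ℝ)| ≤
        (E.filter (fun k => k < k0)).card * (C * ε) + C +
        C * (nn + nn * B + p / P.m i * (E.filter (fun k => k0 < k)).card +
          ε * (E.filter (fun k => k0 < k)).card) := by
      refine le_trans (abs_add_le _ _) (add_le_add (le_trans (abs_add_le _ _)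
        (add_le_add e1 e2)) e3)
    refine le_trans e5 ?_
    have hq : 0 ≤ p / P.m i := by positivity
    set a : ℝ := ((E.filter (fun k => k < k0)).card : ℝ)
    set b : ℝ := ((E.filter (fun k => k0 < k)).card : ℝ)
    have ha : 0 ≤ a := Nat.cast_nonneg _
    have hb : 0 ≤ b := Nat.cast_nonneg _
    have e6 : a * (C * ε) + C + C * (nn + nn * B + p / P.m i * b + ε * b) =
        C * (1 + nn + nn * B + p / P.m i * b + ε * (a + b)) := by ring
    rw [e6]
    refine mul_le_mul_of_nonneg_left ?_ hC
    have e7 : p / P.m i * b ≤ p / P.m i * E.card := mul_le_mul_of_nonneg_left (by linarith) hq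
    have e8 : ε * (a + b) ≤ ε * E.card := mul_le_mul_of_nonneg_left hcardle hε
    have e9 : (nn : ℝ) ≤ nn * B := by nlinarith
    linarith

end Pool.Agent.W3.GU
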